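import Mathlib

set_option autoImplicit false
open Filter Topology Finset

namespace Pool.Agent.H.MP_6df72f_an

variable {𝕂 : Type} [RCLike 𝕂] {X Y : Type} [NormedAddCommGroup X] [NormedSpace 𝕂 X]
  [NormedAddCommGroup Y] [NormedSpace 𝕂 Y]

lemma grunblum (f : ℕ → X) (hf : ∀ n, f n ≠ 0) (C : ℝ)
    (hC : ∀ (a : ℕ → 𝕂) (m n : ℕ), m ≤ n →
      ‖∑ i ∈ range m, a i • f i‖ ≤ C * ‖∑ i ∈ range n, a i • f i‖)
    (y : X) (hy : y ∈ (Submodule.span 𝕂 (Set.range f)).topologicalClosure) :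
    ∃ a : ℕ → 𝕂, Tendsto (fun N => ∑ i ∈ range N, a i • f i) atTop (𝓝 y) := by
  let L := Finsupp.linearCombination 𝕂 f
  have hev : ∀ c : ℕ →₀ 𝕂, ∃ N0, ∀ N ≥ N0, ∑ i ∈ range N, c i • f i = L c := by
    intro c
    obtain ⟨N0, hN0⟩ := c.support.exists_nat_subset_range
    refine ⟨N0, fun N hN => ?_⟩
    rw [Finsupp.linearCombination_apply, Finsupp.sum_of_support_subset c
      (hN0.trans (range_mono hN)) (fun i a => a • f i) (by simp)]
  have hb : ∀ (c : ℕ →₀ 𝕂) N, ‖∑ i ∈ range N, c i • f i‖ ≤ C * ‖L c‖ := by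
    intro c N
    obtain ⟨N0, hN0⟩ := hev c
    rw [← hN0 (max N N0) (le_max_right _ _)]
    exact hC _ _ _ (le_max_left _ _)
  obtain ⟨z, hz, hzy⟩ := mem_closure_iff_seq_limit.1 hy
  have hz' : ∀ m, ∃ c : ℕ →₀ 𝕂, L c = z m := fun m =>
    Finsupp.mem_span_range_iff_exists_finsupp.1 (hz m)
  choose c hc using hz'
  have hcau : ∀ i, ∃ a, Tendsto (fun m => c m i) atTop (𝓝 a) := by
    intro i
    have hp : 0 < ‖f i‖ := norm_pos_iff.2 (hf i)
    refine cauchySeq_tendsto_of_complete ?_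
    have hzc := hzy.cauchySeq
    rw [cauchySeq_iff_tendsto_dist_atTop_0] at hzc ⊢
    refine squeeze_zero (fun _ => dist_nonneg) (fun p => ?_)
      (by simpa using hzc.const_mul (2 * C / ‖f i‖))
    have h1 := hb (c p.1 - c p.2) (i + 1)
    have h2 := hb (c p.1 - c p.2) i
    rw [map_sub, hc, hc] at h1 h2
    rw [sum_range_succ] at h1
    have h3 := norm_sub_le (∑ x ∈ range i, (c p.1 - c p.2) x • f x + (c p.1 - c p.2) i • f i)
      (∑ x ∈ range i, (c p.1 - c p.2) x • f x)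
    rw [add_sub_cancel_left, norm_smul, Finsupp.sub_apply] at h3
    rw [dist_eq_norm, dist_eq_norm, div_mul_eq_mul_div, le_div_iff₀ hp]
    rw [Finsupp.sub_apply] at h1
    linarith
  choose a ha using hcau
  have hlim : ∀ m N, ‖∑ i ∈ range N, a i • f i - ∑ i ∈ range N, c m i • f i‖ ≤ C * ‖y - z m‖ := by
    intro m N
    have t1 : Tendsto (fun k => ‖∑ i ∈ range N, c k i • f i - ∑ i ∈ range N, c m i • f i‖) atTop
        (𝓝 ‖∑ i ∈ range N, a i • f i - ∑ i ∈ range N, c m i • f i‖) :=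
      ((tendsto_finsetSum _ fun i _ => (ha i).smul_const (f i)).sub_const _).norm
    have t2 : Tendsto (fun k => C * ‖z k - z m‖) atTop (𝓝 (C * ‖y - z m‖)) :=
      (hzy.sub_const _).norm.const_mul C
    refine le_of_tendsto_of_tendsto' t1 t2 fun k => ?_
    have := hb (c k - c m) N
    rw [map_sub, hc, hc] at this
    simpa only [Finsupp.sub_apply, sub_smul, sum_sub_distrib] using this
  refine ⟨a, Metric.tendsto_atTop.2 fun ε hε => ?_⟩
  have t3 : Tendsto (fun m => C * ‖y - z m‖ + ‖z m - y‖) atTop (𝓝 0) := by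
    have h1 := ((hzy.const_sub y).norm.const_mul C).add (hzy.sub_const y).norm
    simpa using h1
  obtain ⟨m, hm⟩ := (t3.eventually (gt_mem_nhds hε)).exists
  obtain ⟨N0, hN0⟩ := hev (c m)
  refine ⟨N0, fun N hN => ?_⟩
  have h1 := hlim m N
  rw [hN0 N hN, hc] at h1
  rw [dist_eq_norm]
  have h2 := norm_sub_le_norm_sub_add_norm_sub (∑ i ∈ range N, a i • f i) (z m) y
  linarith

lemma step (K : Submodule 𝕂 X) (hK : ¬ FiniteDimensional 𝕂 K) (F : Submodule 𝕂 X)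
    [FiniteDimensional 𝕂 F] (g : X) (ρ : ℝ) (hρ : ρ < 1) :
    ∃ k ∈ K, ∀ y ∈ F, ∀ l : 𝕂, ρ * ‖y‖ ≤ ‖y + l • (g + k)‖ := by
  set e : ℝ := (1 - ρ) / 2 with he
  have he0 : 0 < e := by rw [he]; linarith
  have : ProperSpace F := FiniteDimensional.proper_rclike 𝕂 F
  have hd : ∀ x : F, ∃ φ : StrongDual 𝕂 X, ‖φ‖ ≤ 1 ∧ φ x = ‖(x : X)‖ := fun x =>
    exists_dual_vector'' 𝕂 (x : X)
  choose φ hφ1 hφ2 using hd
  have hcpt : IsCompact (Metric.sphere (0 : F) 1) := isCompact_sphere _ _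
  obtain ⟨T, hT⟩ := hcpt.elim_finite_subcover (fun x : F => {y : F | 1 - e < ‖φ x y‖})
    (fun x => isOpen_lt continuous_const (by fun_prop)) (by
      intro x hx
      refine Set.mem_iUnion.2 ⟨x, ?_⟩
      have : ‖(x : X)‖ = 1 := by simpa using hx
      simp [hφ2, this, he0])
  have hnorm : ∀ y ∈ F, ∃ ψ : StrongDual 𝕂 X, ‖ψ‖ ≤ 1 ∧ (ψ = 0 ∨ ∃ x ∈ T, ψ = φ x) ∧
      (1 - e) * ‖y‖ ≤ ‖ψ y‖ := by
    intro y hy
    by_cases h0 : y = 0
    · exact ⟨0, by simp, Or.inl rfl, by simp [h0]⟩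
    have hp : 0 < ‖y‖ := norm_pos_iff.2 h0
    have hmem : ((‖y‖⁻¹ : ℝ) : 𝕂) • (⟨y, hy⟩ : F) ∈ Metric.sphere (0 : F) 1 := by
      simp [norm_smul, hp.ne']
    obtain ⟨x, hx, hxy⟩ := Set.mem_iUnion₂.1 (hT hmem)
    refine ⟨φ x, hφ1 x, Or.inr ⟨x, hx, rfl⟩, ?_⟩
    simp only [Set.mem_ofPred_eq, SetLike.val_smul, map_smul, norm_smul, RCLike.norm_ofReal,
      abs_inv, abs_norm] at hxy
    rw [lt_inv_mul_iff₀ hp] at hxy
    linarith
  let Φ : K →ₗ[𝕂] (T → 𝕂) := LinearMap.pi fun x => (φ x : X →ₗ[𝕂] 𝕂).comp K.subtype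
  obtain ⟨k0, hk0, hk1⟩ : ∃ k0 : K, k0 ≠ 0 ∧ Φ k0 = 0 := by
    by_contra hc
    push Not at hc
    refine hK (FiniteDimensional.of_injective Φ ?_)
    rw [← LinearMap.ker_eq_bot, LinearMap.ker_eq_bot']
    intro m hm
    by_contra h
    exact hc m h hm
  have hkp : 0 < ‖(k0 : X)‖ := norm_pos_iff.2 (by simpa using hk0)
  set M := ‖g‖ + 1 with hM
  have hM0 : 0 < M := by positivity
  set t : ℝ := (‖g‖ + 2 / e * M) / ‖(k0 : X)‖ with ht
  have ht0 : 0 ≤ t := by positivity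
  have hkn : ‖(t : 𝕂) • (k0 : X)‖ = ‖g‖ + 2 / e * M := by
    rw [norm_smul, RCLike.norm_ofReal, abs_of_nonneg ht0, ht]
    field_simp
  refine ⟨(t : 𝕂) • (k0 : X), K.smul_mem _ k0.2, fun y hy l => ?_⟩
  have hy0 := norm_nonneg y
  by_cases hl : ‖l‖ * M ≤ e * ‖y‖
  · obtain ⟨ψ, h1, h2, h3⟩ := hnorm y hy
    have h4 : ψ k0 = 0 := by
      rcases h2 with rfl | ⟨x, hx, rfl⟩
      · rfl
      · exact congrFun hk1 ⟨x, hx⟩
    have h5 : ‖ψ (y + l • (g + (t : 𝕂) • (k0 : X)))‖ ≤ ‖y + l • (g + (t : 𝕂) • (k0 : X))‖ :=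
      (ψ.le_of_opNorm_le h1 _).trans (by rw [one_mul])
    have h6 : ψ (y + l • (g + (t : 𝕂) • (k0 : X))) = ψ y + l • ψ g := by simp [h4]
    have h7 : ‖ψ g‖ ≤ M := (ψ.le_of_opNorm_le h1 _).trans (by rw [one_mul]; linarith)
    have h8 : ‖l • ψ g‖ ≤ ‖l‖ * M := by
      rw [norm_smul]; exact mul_le_mul_of_nonneg_left h7 (norm_nonneg _)
    have h9 := norm_sub_le (ψ y + l • ψ g) (l • ψ g)
    rw [add_sub_cancel_right] at h9
    rw [h6] at h5
    have : ρ = 1 - e - e := by rw [he]; ring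
    rw [this]
    nlinarith
  · push Not at hl
    have h1 := norm_sub_le (y + l • (g + (t : 𝕂) • (k0 : X))) y
    rw [add_sub_cancel_left, norm_smul] at h1
    have h2 := norm_sub_le (g + (t : 𝕂) • (k0 : X)) g
    rw [add_sub_cancel_left, hkn] at h2
    have h3 : ‖l‖ * (2 / e * M) ≤ ‖l‖ * ‖g + (t : 𝕂) • (k0 : X)‖ :=
      mul_le_mul_of_nonneg_left (by linarith) (norm_nonneg _)
    have h4 : 2 * ‖y‖ ≤ ‖l‖ * (2 / e * M) := by
      have : ‖l‖ * (2 / e * M) = 2 * (‖l‖ * M) / e := by ring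
      rw [this, le_div_iff₀ he0]
      linarith
    nlinarith

lemma inf_case (K : Submodule 𝕂 X) (hK : ¬ FiniteDimensional 𝕂 K) (g : ℕ → X) :
    ∃ f : ℕ → X, (∀ n, f n - g n ∈ K) ∧ ∀ (a : ℕ → 𝕂) (m n : ℕ), m ≤ n →
      ‖∑ i ∈ range m, a i • f i‖ ≤ 2 * ‖∑ i ∈ range n, a i • f i‖ := by
  let c : ℕ → ℝ := fun n => 1 + 1 / ((n : ℝ) + 1)
  have hc0 : ∀ n, 0 < c n := fun n => by positivity
  have hc1 : ∀ n, 1 ≤ c n := fun n => le_add_of_nonneg_right (by positivity)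
  have hc2 : ∀ n, c n ≤ 2 := fun n => by
    have : 1 / ((n : ℝ) + 1) ≤ 1 := by
      rw [div_le_one (by positivity)]; linarith [Nat.cast_nonneg (α := ℝ) n]
    simp only [c]; linarith
  have hc3 : ∀ n, c (n + 1) / c n < 1 := fun n => by
    rw [div_lt_one (hc0 n)]
    simp only [c]
    have : 1 / (((n + 1 : ℕ) : ℝ) + 1) < 1 / ((n : ℝ) + 1) :=
      one_div_lt_one_div_of_lt (by positivity) (by push_cast; linarith)
    linarith
  have hs : ∀ (F : Submodule 𝕂 X) (n : ℕ), ∃ k ∈ K, FiniteDimensional 𝕂 F →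
      ∀ y ∈ F, ∀ l : 𝕂, c (n + 1) / c n * ‖y‖ ≤ ‖y + l • (g n + k)‖ := by
    intro F n
    by_cases hF : FiniteDimensional 𝕂 F
    · obtain ⟨k, hk, h⟩ := step K hK F (g n) _ (hc3 n)
      exact ⟨k, hk, fun _ => h⟩
    · exact ⟨0, K.zero_mem, fun h => absurd h hF⟩
  choose k hk1 hk2 using hs
  obtain ⟨S, hS0, hS⟩ : ∃ S : ℕ → Submodule 𝕂 X, S 0 = ⊥ ∧
      ∀ n, S (n + 1) = S n ⊔ Submodule.span 𝕂 {g n + k (S n) n} :=
    ⟨fun n => Nat.rec (motive := fun _ => Submodule 𝕂 X) ⊥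
      (fun n F => F ⊔ Submodule.span 𝕂 {g n + k F n}) n, rfl, fun _ => rfl⟩
  have hfd : ∀ n : ℕ, FiniteDimensional 𝕂 (S n) := by
    intro n
    induction n with
    | zero => rw [hS0]; infer_instance
    | succ n ih => rw [hS]; infer_instance
  refine ⟨fun n => g n + k (S n) n, fun n => by simpa using hk1 _ _, fun a => ?_⟩
  have hmem : ∀ n, ∑ i ∈ range n, a i • (g i + k (S i) i) ∈ S n := by
    intro n
    induction n with
    | zero => simp
    | succ n ih =>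
      rw [sum_range_succ, hS]
      exact Submodule.add_mem_sup ih
        (Submodule.smul_mem _ _ (Submodule.mem_span_singleton_self _))
  have hmono : Monotone fun n => ‖∑ i ∈ range n, a i • (g i + k (S i) i)‖ / c n := by
    refine monotone_nat_of_le_succ fun n => ?_
    have := hk2 (S n) n (hfd n) _ (hmem n) (a n)
    rw [← sum_range_succ (fun i => a i • (g i + k (S i) i))] at this
    rw [le_div_iff₀ (hc0 _)]
    refine le_trans (le_of_eq ?_) this
    ring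
  intro m n hmn
  have h := hmono hmn
  simp only at h
  rw [div_le_div_iff₀ (hc0 _) (hc0 _)] at h
  have h1 := norm_nonneg (∑ i ∈ range m, a i • (g i + k (S i) i))
  have h2 := norm_nonneg (∑ i ∈ range n, a i • (g i + k (S i) i))
  nlinarith [hc1 n, hc2 m]

lemma fin_case [CompleteSpace X] [CompleteSpace Y] (Q : X →L[𝕂] Y) (hQ : Function.Surjective Q)
    [FiniteDimensional 𝕂 Q.ker] : ∃ S : Y →L[𝕂] X, ∀ y, Q (S y) = y := by
  obtain ⟨p, hp⟩ := Submodule.ClosedComplemented.of_finiteDimensional Q.ker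
  let W : Submodule 𝕂 X := p.ker
  have : CompleteSpace W := p.isClosed_ker.completeSpace_coe
  let R : W →L[𝕂] Y := Q.comp W.subtypeL
  have h1 : R.ker = ⊥ := by
    rw [LinearMap.ker_eq_bot']
    intro w hw
    have h := hp ⟨w, hw⟩
    have h2 : p w = 0 := w.2
    rw [h2] at h
    exact Subtype.ext (congrArg Subtype.val h).symm
  have h2 : R.range = ⊤ := by
    rw [LinearMap.range_eq_top]
    intro y
    obtain ⟨x, rfl⟩ := hQ y
    refine ⟨⟨x - p x, ?_⟩, ?_⟩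
    · show p (x - p x) = 0
      rw [map_sub, hp, sub_self]
    · show Q (x - p x) = Q x
      have : Q (p x) = 0 := (p x).2
      rw [map_sub, this, sub_zero]
  let e := ContinuousLinearEquiv.ofBijective R h1 h2
  exact ⟨W.subtypeL.comp (e.symm : Y →L[𝕂] W), fun y => e.apply_symm_apply y⟩

lemma main [CompleteSpace X] [CompleteSpace Y] (Q : X →L[𝕂] Y) (hQ : Function.Surjective Q)
    (φ : ℕ → Y) (h0 : ∀ n, φ n ≠ 0)
    (hφ : ∀ y ∈ (Submodule.span 𝕂 (Set.range φ)).topologicalClosure,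
      ∃! a : ℕ → 𝕂, Tendsto (fun N => ∑ i ∈ range N, a i • φ i) atTop (𝓝 y)) :
    ∃ f : ℕ → X, (∀ n, Q (f n) = φ n) ∧ (∀ n, f n ≠ 0) ∧
      ∀ y ∈ (Submodule.span 𝕂 (Set.range f)).topologicalClosure,
        ∃! a : ℕ → 𝕂, Tendsto (fun N => ∑ i ∈ range N, a i • f i) atTop (𝓝 y) := by
  have hcl : ∀ f : ℕ → X, (∀ n, Q (f n) = φ n) →
      ∀ y ∈ (Submodule.span 𝕂 (Set.range f)).topologicalClosure,
        Q y ∈ (Submodule.span 𝕂 (Set.range φ)).topologicalClosure := by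
    intro f hf y hy
    refine map_mem_closure Q.continuous hy fun x hx => ?_
    have : Submodule.span 𝕂 (Set.range f) ≤
        (Submodule.span 𝕂 (Set.range φ)).comap (Q : X →ₗ[𝕂] Y) := by
      rw [Submodule.span_le]
      rintro _ ⟨n, rfl⟩
      show Q (f n) ∈ Submodule.span 𝕂 (Set.range φ)
      rw [hf]
      exact Submodule.subset_span ⟨n, rfl⟩
    exact this hx
  suffices h : ∃ f : ℕ → X, (∀ n, Q (f n) = φ n) ∧
      ∀ y ∈ (Submodule.span 𝕂 (Set.range f)).topologicalClosure,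
        ∃ a : ℕ → 𝕂, Tendsto (fun N => ∑ i ∈ range N, a i • f i) atTop (𝓝 y) by
    obtain ⟨f, hf, h⟩ := h
    refine ⟨f, hf, fun n hn => h0 n (by rw [← hf, hn, map_zero]), fun y hy => ?_⟩
    obtain ⟨a, ha⟩ := h y hy
    have key : ∀ b : ℕ → 𝕂, Tendsto (fun N => ∑ i ∈ range N, b i • f i) atTop (𝓝 y) →
        Tendsto (fun N => ∑ i ∈ range N, b i • φ i) atTop (𝓝 (Q y)) := by
      intro b hb
      have := (Q.continuous.tendsto y).comp hb
      refine this.congr fun N => ?_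
      simp [hf]
    exact ⟨a, ha, fun b hb => (hφ _ (hcl f hf y hy)).unique (key b hb) (key a ha)⟩
  by_cases hK : FiniteDimensional 𝕂 Q.ker
  · obtain ⟨S, hS⟩ := fin_case Q hQ
    refine ⟨fun n => S (φ n), fun n => hS _, fun y hy => ?_⟩
    obtain ⟨a, ha, -⟩ := hφ _ (hcl _ (fun n => hS _) y hy)
    have h1 : S (Q y) = y := by
      have : (Submodule.span 𝕂 (Set.range fun n => S (φ n))).topologicalClosure ≤
          (S.comp Q - ContinuousLinearMap.id 𝕂 X).ker := by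
        refine Submodule.topologicalClosure_minimal _ ?_ (ContinuousLinearMap.isClosed_ker _)
        rw [Submodule.span_le]
        rintro _ ⟨n, rfl⟩
        show S (Q (S (φ n))) - S (φ n) = 0
        rw [hS, sub_self]
      exact sub_eq_zero.1 (this hy)
    refine ⟨a, ?_⟩
    have := (S.continuous.tendsto _).comp ha
    rw [h1] at this
    refine this.congr fun N => ?_
    simp
  · choose g hg using fun n => hQ (φ n)
    obtain ⟨f, hf1, hf2⟩ := inf_case Q.ker hK g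
    have hf : ∀ n, Q (f n) = φ n := fun n => by
      have : Q (f n - g n) = 0 := hf1 n
      rw [map_sub, hg] at this
      exact sub_eq_zero.1 this
    exact ⟨f, hf, grunblum f (fun n hn => h0 n (by rw [← hf, hn, map_zero])) 2 hf2⟩

end Pool.Agent.H.MP_6df72f_an
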